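import Pool.Agent.H996.SI.Cnt
import Pool.Agent.H560.SI.StmB

/-!
# Project SI (helper560), part T1K: both signs with a positive proportion, for an abstract choice of
the centres

All `s` of the set `A` of a centre satisfy `(m F)' = s²` with `F` in one interval of length `u + 2 L`,
so they lie in one interval of length `u + L`, around any of them.
-/

set_option autoImplicit false

namespace Pool.Agent.H618.SI

open Polynomial Finset
open scoped Classical
open Pool.Agent.H694.Typ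
open Pool.Agent.H985.Chow (mob)
open Pool.Agent.H985.Par (Sft S_sw)
open Pool.Agent.H560.SI
open Pool.Agent.H996.SI

variable {K : Type} [Field K] [Fintype K]

/-- two values of the centre differ by a polynomial of degree less than `u + L` -/
theorem close [CharP K 2] {n u L : ℕ} {g m F F' s s' : K[X]} (hm : m ≠ 0) (hmu : m.natDegree = u)
    (hF : F ∈ Itv K n (u + 2 * L) g) (hF' : F' ∈ Itv K n (u + 2 * L) g)
    (hd : derivative (m * F) = s ^ 2) (hd' : derivative (m * F') = s' ^ 2) :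
    (s - s').degree < ((u + L : ℕ) : WithBot ℕ) := by
  by_cases h0 : s - s' = 0
  · rw [h0, degree_zero]
    exact WithBot.bot_lt_coe _
  have h1 : (s - s') ^ 2 = derivative (m * (F - F')) := by
    rw [mul_sub, derivative_sub, hd, hd']
    exact sub_pow_char s s'
  have hFF : F - F' ≠ 0 := by
    intro h
    rw [h, mul_zero, derivative_zero] at h1
    exact h0 (pow_eq_zero_iff two_ne_zero |>.1 h1)
  rw [Itv, mem_filter] at hF hF'
  have h2 : (F - F').degree < ((u + 2 * L : ℕ) : WithBot ℕ) := by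
    have h3 : F - F' = (F - g) - (F' - g) := by ring
    rw [h3]
    exact (degree_sub_le _ _).trans_lt (max_lt hF.2 hF'.2)
  have h3 := (natDegree_lt_iff_degree_lt hFF).2 h2
  have h4 : (m * (F - F')).natDegree < u + (u + 2 * L) := by
    rw [natDegree_mul hm hFF, hmu]
    omega
  have h5 : ((s - s') ^ 2).natDegree < u + (u + 2 * L) := by
    rw [h1]
    exact (natDegree_derivative_le _).trans_lt (by omega)
  rw [natDegree_pow] at h5
  exact (natDegree_lt_iff_degree_lt h0).1 (by omega)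

/-- every polynomial is counted at most once -/
theorem cnt' [CharP K 2] {n u L z : ℕ} {g m : K[X]} {A : Finset K[X]} (Fs : K[X] → K[X]) (σ : ℤ)
    (hm : m ≠ 0) (hmu : m.natDegree = u) (hun : u + 2 * L ≤ n)
    (hF : ∀ s ∈ A, Fs s ∈ Itv K n (u + 2 * L) g ∧ derivative (m * Fs s) = s ^ 2) :
    ∑ s ∈ A, ((Sf m (Fs s) L z).filter (fun t => mob (Fs s + m * t ^ 2) = σ)).card ≤
      ((Itv K n (u + 2 * L) g).filter (fun f => mob f = σ)).card := by
  rw [← card_sigma]
  refine card_le_card_of_injOn (fun p => Fs p.1 + m * p.2 ^ 2) ?_ ?_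
  · rintro ⟨s, t⟩ hp
    rw [Finset.mem_coe, mem_sigma, mem_filter, Sf, mem_filter] at hp
    rw [Finset.mem_coe, mem_filter]
    exact ⟨add_Itv hm hmu hun (hF s hp.1).1 hp.2.1.1, hp.2.2⟩
  · rintro ⟨s, t⟩ hp ⟨s', t'⟩ hp' h
    rw [Finset.mem_coe, mem_sigma, mem_filter, Sf, mem_filter] at hp hp'
    have h1 : Fs s + m * t ^ 2 = Fs s' + m * t' ^ 2 := h
    have h2 : s ^ 2 = s' ^ 2 := by
      have h3 := der_add m (Fs s) t
      have h4 := der_add m (Fs s') t'
      rw [(hF s hp.1).2] at h3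
      rw [(hF s' hp'.1).2] at h4
      rw [← h3, ← h4, h1]
    have h3 : s = s' := sq_inj' h2
    subst h3
    have h4 : m * t ^ 2 = m * t' ^ 2 := add_left_cancel h1
    have h5 : t = t' := sq_inj' (mul_left_cancel₀ hm h4)
    rw [h5]

/-- the values with a square factor are rare -/
theorem nsq' (hr : S_rtc) [CharP K 2] {N H u L z : ℕ} {m S : K[X]} {A : Finset K[X]}
    (hA : A ⊆ SmI K N H (L / 8) S) (Fs : K[X] → K[X])
    (hm : m.Monic) (hmi : Irreducible m) (hmu : m.natDegree = u) (hLu : L < 8 * u) (hLH : L ≤ H)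
    (hF0 : ∀ s ∈ A, ∀ t ∈ Pn K L, Fs s + m * t ^ 2 ≠ 0)
    (hd : ∀ s ∈ A, derivative (m * Fs s) = s ^ 2) :
    ∑ s ∈ A, (((Sf m (Fs s) L z).filter (fun t => mob (Fs s + m * t ^ 2) = 0)).card : ℝ) ≤
      (Fintype.card K : ℝ) ^ (L + H) * wt K z := by
  have hq := q_ge (k := K)
  set q : ℝ := (Fintype.card K : ℝ) with hqd
  have h1 : ∀ s ∈ A,
      (((Sf m (Fs s) L z).filter (fun t => mob (Fs s + m * t ^ 2) = 0)).card : ℝ) ≤
      ∑ P ∈ (PU K (L / 8)).filter (fun P => z < P.natDegree),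
        if P ∣ s then q ^ L * wt K P.natDegree else 0 := by
    intro s hs
    have hcl : ∀ P : K[X], ∃ r : K[X], P.Monic ∧ Irreducible P ∧ P ≠ m →
        ∀ t : K[X], P ∣ Fs s + m * t ^ 2 ↔ P ∣ t - r := by
      intro P
      by_cases h : P.Monic ∧ Irreducible P ∧ P ≠ m
      · obtain ⟨r, hr1, hr2⟩ := hr K m (Fs s) P hm hmi h.1 h.2.1 h.2.2
        exact ⟨r, fun _ => hr2⟩
      · exact ⟨0, fun h' => absurd h' h⟩
    choose rr hrr using hcl
    have hs' := hA hs
    rw [SmI, mem_filter, mem_Mn] at hs'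
    have h2 : (Sf m (Fs s) L z).filter (fun t => mob (Fs s + m * t ^ 2) = 0) ⊆
        ((PU K (L / 8)).filter (fun P => z < P.natDegree ∧ P ∣ s)).biUnion
          (fun P => (Pn K L).filter (fun t => P ∣ t - rr P)) := by
      intro t ht
      rw [mem_filter, Sf, mem_filter] at ht
      obtain ⟨P, hP, hPi, hPd⟩ := exists_sq (hF0 s hs t ht.1.1) (mob_zero ht.2)
      have hPd' : P ∣ Fs s + m * t ^ 2 := (dvd_pow_self P two_ne_zero).trans hPd
      have hPs : P ∣ s := dvd_s hPi hPd (by rw [der_add, hd s hs])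
      have hPL : P.natDegree ≤ L / 8 := hs'.2.2.2 P hP hPi hPs
      have hPm : P ≠ m := by
        rintro rfl
        omega
      rw [mem_biUnion]
      refine ⟨P, ?_, ?_⟩
      · rw [mem_filter, mem_PU]
        exact ⟨⟨hP, hPi, hPL⟩, ht.1.2 P hP hPi hPd', hPs⟩
      · rw [mem_filter]
        exact ⟨ht.1.1, (hrr P ⟨hP, hPi, hPm⟩ t).1 hPd'⟩
    have h3 := (card_le_card h2).trans card_biUnion_le
    have h4 : (((Sf m (Fs s) L z).filter (fun t => mob (Fs s + m * t ^ 2) = 0)).card : ℝ) ≤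
        ∑ P ∈ (PU K (L / 8)).filter (fun P => z < P.natDegree ∧ P ∣ s),
          (((Pn K L).filter (fun t => P ∣ t - rr P)).card : ℝ) := by exact_mod_cast h3
    refine h4.trans ?_
    rw [← filter_filter, ← sum_filter]
    refine sum_le_sum fun P hP => ?_
    rw [mem_filter, mem_filter, mem_PU] at hP
    exact class_card' hP.1.1.1 (by omega) _
  refine (sum_le_sum h1).trans ?_
  rw [sum_comm]
  have h2 : ∀ P ∈ (PU K (L / 8)).filter (fun P => z < P.natDegree),
      (∑ s ∈ A, if P ∣ s then q ^ L * wt K P.natDegree else 0) ≤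
      q ^ (L + H) * wt K P.natDegree ^ 2 := by
    intro P hP
    rw [mem_filter, mem_PU] at hP
    rw [← sum_filter, sum_const, nsmul_eq_mul]
    have h3 : (A.filter (fun s => P ∣ s)).card ≤
        ((Pn K H).filter (fun w => P ∣ w - -S)).card := by
      refine card_le_card_of_injOn (fun s => s - S) ?_ ?_
      · intro s hs
        rw [Finset.mem_coe, mem_filter] at hs
        have hs' := hA hs.1
        rw [SmI, mem_filter] at hs'
        rw [Finset.mem_coe, mem_filter, mem_Pn]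
        refine ⟨hs'.2.1, ?_⟩
        rw [sub_neg_eq_add, sub_add_cancel]
        exact hs.2
      · intro s _ s' _ h
        exact sub_left_injective h
    have h4 : ((A.filter (fun s => P ∣ s)).card : ℝ) ≤ q ^ H * wt K P.natDegree :=
      le_trans (by exact_mod_cast h3) (class_card' hP.1.1 (by omega) _)
    have h5 : 0 ≤ q ^ L * wt K P.natDegree := by
      have := wt_nonneg (k := K) P.natDegree
      positivity
    calc ((A.filter (fun s => P ∣ s)).card : ℝ) * (q ^ L * wt K P.natDegree)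
        ≤ (q ^ H * wt K P.natDegree) * (q ^ L * wt K P.natDegree) :=
          mul_le_mul_of_nonneg_right h4 h5
      _ = _ := by ring
  refine (sum_le_sum h2).trans ?_
  rw [← mul_sum]
  exact mul_le_mul_of_nonneg_left (large_sum z (L / 8)) (by positivity)

/-- **T1K.** -/
theorem t1K (hw : S_wb) (hr : S_rtc) (hv : S_vl) (hc : S_cut) (hsw : S_sw) : S_t1K := by
  intro K _ _ _ θ hθ hctr
  have hq := q_ge (k := K)
  set q : ℝ := (Fintype.card K : ℝ) with hqd
  obtain ⟨lam, cs, hlam, hcs, N₀, hS⟩ := hctr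
  obtain ⟨cv, hcv, hV⟩ := hv K
  -- the level of the sieve
  obtain ⟨z, hz1, hz2⟩ : ∃ z : ℕ, 1 ≤ z ∧ wt K z ≤ cs * cv / (8 * z) := by
    obtain ⟨z, hz⟩ := exists_nat_ge (8 * (8 / (cs * cv)) / 1 ^ 2)
    refine ⟨z + 1, by omega, ?_⟩
    have h1 := lin_le_rpow (q := q) (b := 1) (C := 8 / (cs * cv)) hq one_pos (z + 1)
      (hz.trans (by push_cast; linarith))
    rw [one_mul, Real.rpow_natCast] at h1
    have h2 : (0 : ℝ) < ((z + 1 : ℕ) : ℝ) := by positivity
    have h3 : 0 < q ^ (z + 1) := by positivity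
    rw [wt, ← hqd, inv_eq_one_div, div_le_div_iff₀ h3 (by positivity)]
    have h4 : cs * cv * (8 / (cs * cv) * ((z + 1 : ℕ) : ℝ)) = 8 * ((z + 1 : ℕ) : ℝ) := by
      field_simp
    have h5 := mul_le_mul_of_nonneg_left h1 (by positivity : 0 ≤ cs * cv)
    rw [h4] at h5
    linarith
  obtain ⟨κ, hκ, n₁, hW⟩ := win hw hr hsw hv K lam hlam
  have hz0 : (0 : ℝ) < z := by exact_mod_cast hz1
  refine ⟨cs * cv / (4 * z), by positivity,
    max n₁ (max N₀ (max (⌈z / κ⌉₊ + 1) (⌈(8 * z + 8) / lam⌉₊ + 1))), ?_⟩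
  intro n hn h hh hhn g σ hg hgn hσ
  have hn1 : n₁ ≤ n := (le_max_left _ _).trans hn
  have hn' : max N₀ (max (⌈z / κ⌉₊ + 1) (⌈(8 * z + 8) / lam⌉₊ + 1)) ≤ n :=
    (le_max_right _ _).trans hn
  have hn2 : N₀ ≤ n := (le_max_left _ _).trans hn'
  have hn'' : max (⌈z / κ⌉₊ + 1) (⌈(8 * z + 8) / lam⌉₊ + 1) ≤ n := (le_max_right _ _).trans hn'
  have hn3 : ⌈z / κ⌉₊ + 1 ≤ n := (le_max_left _ _).trans hn''
  have hn4 : ⌈(8 * z + 8) / lam⌉₊ + 1 ≤ n := (le_max_right _ _).trans hn''
  have hzn : (z : ℝ) ≤ κ * n := by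
    have h1 : (z : ℝ) / κ ≤ n := (Nat.le_ceil _).trans (by exact_mod_cast (by omega :
      ⌈(z : ℝ) / κ⌉₊ ≤ n))
    rw [div_le_iff₀ hκ] at h1
    linarith
  have hzl : (8 * z + 8 : ℝ) ≤ lam * n := by
    have h1 : (8 * z + 8 : ℝ) / lam ≤ n := (Nat.le_ceil _).trans (by exact_mod_cast (by omega :
      ⌈(8 * z + 8 : ℝ) / lam⌉₊ ≤ n))
    rw [div_le_iff₀ hlam] at h1
    linarith
  obtain ⟨N, u, L, hp1, hp2, hp3, hp4, hp5, hCtr⟩ := hS n hn2
  have hLz : 8 * z + 8 ≤ L := by
    have h1 : ((8 * z + 8 : ℕ) : ℝ) ≤ L := by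
      push_cast
      linarith
    exact_mod_cast h1
  have hun : u + 2 * L ≤ n := by omega
  -- the count in the short intervals
  have key : ∀ g' : K[X], g'.Monic → g'.natDegree = n →
      cs * cv / (4 * z) * q ^ (u + 2 * L) ≤
        ((Itv K n (u + 2 * L) g').filter (fun f => mob f = σ)).card := by
    intro g' hg' hgn'
    obtain ⟨m, hm, hmi, hmu, A, hAc, hA⟩ := hCtr g' hg' hgn'
    have hFs : ∀ s : K[X], ∃ F : K[X], s ∈ A →
        F ∈ Itv K n (u + 2 * L) g' ∧ derivative (m * F) = s ^ 2 := by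
      intro s
      by_cases h1 : s ∈ A
      · obtain ⟨F, hF1, hF2⟩ := (hA s h1).2.2.2.2
        exact ⟨F, fun _ => ⟨hF1, hF2⟩⟩
      · exact ⟨0, fun h2 => absurd h2 h1⟩
    choose Fs hFs using hFs
    obtain ⟨S, hSA⟩ : ∃ S : K[X], A ⊆ SmI K N (u + L) (L / 8) S := by
      rcases A.eq_empty_or_nonempty with hAe | ⟨S, hSA⟩
      · exact ⟨0, by rw [hAe]; exact empty_subset _⟩
      · refine ⟨S, fun s hs => ?_⟩
        obtain ⟨a1, a2, a3, a4, -⟩ := hA s hs
        rw [SmI, mem_filter, mem_Mn]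
        exact ⟨⟨a1, a2⟩, close hm.ne_zero hmu (hFs s hs).1 (hFs S hSA).1 (hFs s hs).2
          (hFs S hSA).2, a3, a4⟩
    have hcnt := cnt' (z := z) Fs σ hm.ne_zero hmu hun hFs
    have hnsq := nsq' (z := z) hr hSA Fs hm hmi hmu hp5 (by omega : L ≤ u + L)
      (fun s hs1 t ht => by
        have h1 := add_Itv hm.ne_zero hmu hun (hFs s hs1).1 ht
        rw [Itv, mem_filter, mem_Mn] at h1
        exact h1.1.1.ne_zero) (fun s hs1 => (hFs s hs1).2)
    have hV0 := Vp_pos K z
    have hone : ∀ s ∈ A,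
        5 / 16 * (Vp K z * q ^ L) -
          (((Sf m (Fs s) L z).filter (fun t => mob (Fs s + m * t ^ 2) = 0)).card : ℝ) / 2 ≤
          (((Sf m (Fs s) L z).filter (fun t => mob (Fs s + m * t ^ 2) = σ)).card : ℝ) := by
      intro s hs1
      obtain ⟨a1, a2, a3, a4, -⟩ := hA s hs1
      have hF1 := (hFs s hs1).1
      rw [Itv, mem_filter, mem_Mn] at hF1
      have h1 := hW n hn1 z hz1 hzn N u L m s (Fs s) hp1 hp2 hp3 hp5 (by omega) hm hmi hmu
        a1 a2 a3 a4 hF1.1.1 hF1.1.2 (hFs s hs1).2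
      refine one_sign hσ ?_ ?_
      · rw [← mul_assoc]
        exact h1.1
      · rw [← mul_assoc]
        exact h1.2
    have h1 := sum_le_sum hone
    rw [sum_sub_distrib, sum_const, nsmul_eq_mul, ← sum_div] at h1
    have h2 : cs * q ^ (u + L) ≤ (A.card : ℝ) := hAc
    have h3 : (∑ s ∈ A,
        (((Sf m (Fs s) L z).filter (fun t => mob (Fs s + m * t ^ 2) = σ)).card : ℝ)) ≤
        ((Itv K n (u + 2 * L) g').filter (fun f => mob f = σ)).card := by
      exact_mod_cast hcnt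
    have h4 : cv / z ≤ Vp K z := hV z hz1
    have h5 : (0 : ℝ) < q ^ L := by positivity
    have h6 : (0 : ℝ) < q ^ (u + L) := by positivity
    have h7 : q ^ (u + 2 * L) = q ^ (u + L) * q ^ L := by rw [← pow_add]; congr 1; ring
    have h8 : q ^ (L + (u + L)) = q ^ (u + L) * q ^ L := by rw [← pow_add]; congr 1; ring
    rw [h8] at hnsq
    have h9 : q ^ (u + L) * q ^ L * wt K z ≤ q ^ (u + L) * q ^ L * (cs * cv / (8 * z)) :=
      mul_le_mul_of_nonneg_left hz2 (by positivity)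
    have h10 : cs * q ^ (u + L) * (5 / 16 * (cv / z * q ^ L)) ≤
        (A.card : ℝ) * (5 / 16 * (Vp K z * q ^ L)) := by
      gcongr
    have h11 : cs * q ^ (u + L) * (5 / 16 * (cv / z * q ^ L)) =
        5 / 16 * (cs * cv / z) * (q ^ (u + L) * q ^ L) := by ring
    have h12 : q ^ (u + L) * q ^ L * (cs * cv / (8 * z)) =
        1 / 8 * (cs * cv / z) * (q ^ (u + L) * q ^ L) := by
      field_simp
    have h13 : cs * cv / (4 * z) * (q ^ (u + L) * q ^ L) =
        1 / 4 * (cs * cv / z) * (q ^ (u + L) * q ^ L) := by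
      field_simp
    rw [h7, h13]
    rw [h11] at h10
    rw [h12] at h9
    linarith
  have hh0 : u + 2 * L ≤ h := by
    have h1 : ((2 * L + u : ℕ) : ℝ) ≤ h := hp4.trans hh
    have h2 : 2 * L + u ≤ h := by exact_mod_cast h1
    omega
  have hdec : ∀ I : Finset K[X], (@Finset.filter K[X] (fun f => mob f = σ)
      (fun f => Classical.propDecidable _) I) = I.filter (fun f => mob f = σ) :=
    fun I => Finset.filter_congr_decidable I (fun f => mob f = σ) _
  have h1 := hc K n (u + 2 * L) h g (fun f => mob f = σ) (cs * cv / (4 * z) * q ^ (u + 2 * L))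
    hh0 hhn hg hgn (fun g' h1 h2 => by
      have h3 := key g' h1 h2
      rw [← hdec] at h3
      exact h3)
  rw [← hdec]
  refine le_trans (le_of_eq ?_) h1
  have h2 : q ^ h = q ^ (h - (u + 2 * L)) * q ^ (u + 2 * L) := by
    rw [← pow_add]
    congr 1
    omega
  rw [h2]
  ring

end Pool.Agent.H618.SI
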